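import Pool.Agent.Helper88.GM.Goals
import Pool.Agent.Helper88.RR.KI
import Pool.Agent.Helper88.RR.VL
import Pool.Agent.Helper28.RR.RA
import Pool.Agent.Helper59.RR.PW
import Pool.Agent.Helper39.PP.CH

/-! # For most integers there is a window in which all primes are avoided -/

set_option autoImplicit false

open Finset Filter Topology

open scoped Classical

namespace Pool.Agent.Helper73.GM

open Pool.Agent.Helper88.PP (pr Rg om Sf SS uu vv ee LA VV QQ cost nc dd)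
open Pool.Agent.Helper88.RR (gg ab TB WB nz wb DB Db VM GB)
open Pool.Agent.Helper88.GM

/-- the second moment method for squares of weights -/
theorem class_bound {N J : Finset ℕ} {W G : ℕ → ℕ → ℝ} {D : ℕ → ℝ} {X K ε : ℝ}
    (hJ : J.Nonempty) (hX : 0 ≤ X) (hε0 : 0 ≤ ε) (hε1 : ε ≤ 1) (hK : 0 ≤ K)
    (hN : (N.card : ℝ) ≤ (1 + ε) * X)
    (hD : ∀ j ∈ J, 1 ≤ D j)
    (hG0 : ∀ j ∈ J, ∀ n ∈ N, 0 ≤ G j n)
    (h1 : ∀ j ∈ J, |∑ n ∈ N, W j n ^ 2 - X * D j| ≤ ε * X)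
    (h2 : ∀ j ∈ J, ∑ n ∈ N, G j n ≤ ε * (X * D j))
    (h3 : ∀ j ∈ J, ∀ k ∈ J, j ≠ k →
      ∑ n ∈ N, W j n ^ 2 * W k n ^ 2 ≤ (1 + ε) * (X * (D j * D k)))
    (h4 : ∀ j ∈ J, ∀ n ∈ N, W j n ^ 2 ≤ K)
    (S : Finset ℕ) (hS : S ⊆ N) (hSp : ∀ n ∈ S, ∀ j ∈ J, W j n ^ 2 ≤ G j n) :
    (S.card : ℝ) ≤ (18 * ε + 4 * (2 * K) / J.card) * X := by
  set f : ℕ → ℕ → ℝ := fun j n => W j n ^ 2 / D j with hf
  set g : ℕ → ℕ → ℝ := fun j n => G j n / D j with hg
  have hDpos : ∀ j ∈ J, 0 < D j := fun j hj => lt_of_lt_of_le one_pos (hD j hj)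
  have hsum : ∀ j, ∑ n ∈ N, f j n = (∑ n ∈ N, W j n ^ 2) / D j := fun j => by
    rw [Finset.sum_div]
  have key := Pool.Agent.Helper39.PP.ch N J f g X (2 * K) ε hJ hX hε0 (by positivity)
    ?_ ?_ hN ?_ ?_ ?_ ?_
  · refine le_trans ?_ key
    have hsub : S ⊆ N.filter (fun n => ∀ j ∈ J, f j n ≤ g j n) := by
      intro n hn
      rw [mem_filter]
      refine ⟨hS hn, fun j hj => ?_⟩
      exact div_le_div_of_nonneg_right (hSp n hn j hj) (hDpos j hj).le
    exact_mod_cast Finset.card_le_card hsub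
  · intro j hj n _
    exact div_nonneg (sq_nonneg _) (hDpos j hj).le
  · intro j hj n hn
    exact div_nonneg (hG0 j hj n hn) (hDpos j hj).le
  · intro j hj
    have h5 := (abs_le.1 (h1 j hj)).1
    have h6 : 1 ≤ D j := hD j hj
    rw [hsum, le_div_iff₀ (hDpos j hj)]
    have h8 : ε * X ≤ ε * X * D j := le_mul_of_one_le_right (by positivity) h6
    linarith
  · intro j hj
    have h7 : ∑ n ∈ N, g j n = (∑ n ∈ N, G j n) / D j := by
      rw [Finset.sum_div]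
    rw [h7, div_le_iff₀ (hDpos j hj)]
    have := h2 j hj
    linarith
  · intro j hj
    have h6 : 1 ≤ D j := hD j hj
    have hDj := hDpos j hj
    have h7 : ∑ n ∈ N, f j n ^ 2 ≤ K * (∑ n ∈ N, W j n ^ 2) / D j ^ 2 := by
      rw [Finset.mul_sum, Finset.sum_div]
      apply Finset.sum_le_sum
      intro n hn
      rw [hf]
      simp only
      rw [div_pow]
      apply div_le_div_of_nonneg_right _ (by positivity)
      rw [sq (W j n ^ 2)]
      exact mul_le_mul_of_nonneg_right (h4 j hj n hn) (sq_nonneg _)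
    refine h7.trans ?_
    rw [div_le_iff₀ (by positivity)]
    have h8 := (abs_le.1 (h1 j hj)).2
    have h9 : ∑ n ∈ N, W j n ^ 2 ≤ 2 * (X * D j ^ 2) := by
      have h10 : ε * X ≤ X * D j ^ 2 := by
        calc ε * X ≤ 1 * X := mul_le_mul_of_nonneg_right hε1 hX
          _ = X * 1 := by ring
          _ ≤ X * D j ^ 2 := mul_le_mul_of_nonneg_left (one_le_pow₀ h6) hX
      have h11 : X * D j ≤ X * D j ^ 2 := by
        apply mul_le_mul_of_nonneg_left _ hX
        nlinarith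
      linarith
    calc K * ∑ n ∈ N, W j n ^ 2 ≤ K * (2 * (X * D j ^ 2)) :=
          mul_le_mul_of_nonneg_left h9 hK
      _ = 2 * K * X * D j ^ 2 := by ring
  · intro j hj k hk hjk
    have hDj := hDpos j hj
    have hDk := hDpos k hk
    have h7 : ∑ n ∈ N, f j n * f k n =
        (∑ n ∈ N, W j n ^ 2 * W k n ^ 2) / (D j * D k) := by
      rw [Finset.sum_div]
      apply Finset.sum_congr rfl
      intro n _
      rw [hf]
      simp only
      rw [div_mul_div_comm]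
    rw [h7, div_le_iff₀ (by positivity)]
    have := h3 j hj k hk hjk
    linarith

/-- growth -/
theorem grow : ∃ L0 : ℕ, ∀ L : ℕ, L0 ≤ L → (136 * (L / 4 + 1)) ^ 3 ≤ 2 ^ (L / 4) := by
  have h1 : Tendsto (fun k : ℕ => ((k : ℝ)) ^ 3 / (2 : ℝ) ^ k) atTop (𝓝 0) :=
    tendsto_pow_const_div_const_pow_of_one_lt 3 (by norm_num)
  have h2 : ∀ᶠ k : ℕ in atTop, ((k : ℝ)) ^ 3 / (2 : ℝ) ^ k < 1 / (2 * 136 ^ 3) :=
    h1.eventually (gt_mem_nhds (by positivity))
  obtain ⟨k0, hk0⟩ := eventually_atTop.1 h2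
  refine ⟨4 * k0, fun L hL => ?_⟩
  have h3 := hk0 (L / 4 + 1) (by omega)
  rw [div_lt_div_iff₀ (by positivity) (by positivity)] at h3
  have h4 : ((136 * (L / 4 + 1) : ℕ) : ℝ) ^ 3 * 2 < (2 : ℝ) ^ (L / 4 + 1) := by
    push_cast at h3 ⊢
    nlinarith
  rw [pow_succ (2 : ℝ)] at h4
  have h5 : ((136 * (L / 4 + 1) : ℕ) : ℝ) ^ 3 < (2 : ℝ) ^ (L / 4) := by linarith
  have h6 : (((136 * (L / 4 + 1)) ^ 3 : ℕ) : ℝ) < ((2 ^ (L / 4) : ℕ) : ℝ) := by
    push_cast at h5 ⊢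
    exact h5
  exact (by exact_mod_cast h6 : (136 * (L / 4 + 1)) ^ 3 < 2 ^ (L / 4)).le

/-- the choice of the parameters -/
theorem params : ∃ E0 : ℕ, ∀ E : ℕ, E0 ≤ E → ∃ m : ℕ, 1 ≤ m ∧
    2 ^ (Nat.log 2 E / 4) * m ≤ E / 16 ∧
    2 * (2 * Nat.log 2 E * (2 ^ (Nat.log 2 E / 4) * m)) ≤ E / 16 ∧
    (2 * (E / 16 / m + 1)) ^ 3 ≤ E := by
  obtain ⟨L0, hL0⟩ := grow
  refine ⟨2 ^ (L0 + 4), fun E hE => ?_⟩
  set L := Nat.log 2 E with hL
  have hE0 : E ≠ 0 := by
    have : 0 < 2 ^ (L0 + 4) := by positivity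
    omega
  have hLL : L0 + 4 ≤ L := by
    rw [hL]
    exact Nat.le_log_of_pow_le (by norm_num) hE
  have h1 : 2 ^ L ≤ E := Nat.pow_log_le_self 2 hE0
  set k := L / 4 with hk
  have h2 : (136 * (k + 1)) ^ 3 ≤ 2 ^ k := hL0 L (by omega)
  have hk1 : 1 ≤ k := by omega
  have hkL : 4 * k ≤ L := by omega
  have hLk : L + 1 ≤ 4 * (k + 1) := by omega
  set q := 2 ^ k with hq
  have hq4 : q ^ 4 ≤ E := by
    calc q ^ 4 = 2 ^ (4 * k) := by rw [hq, ← pow_mul, mul_comm]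
      _ ≤ 2 ^ L := Nat.pow_le_pow_right (by norm_num) hkL
      _ ≤ E := h1
  have hq1 : 1 ≤ q := Nat.one_le_two_pow
  set D := 128 * (L + 1) * q with hD
  have h68 : 512 * (k + 1) ≤ (136 * (k + 1)) ^ 3 := by
    have h3 : 1 ≤ (136 * (k + 1)) ^ 2 := Nat.one_le_pow _ _ (by omega)
    calc 512 * (k + 1) ≤ (136 * (k + 1)) * (136 * (k + 1)) := by nlinarith
      _ ≤ (136 * (k + 1)) * (136 * (k + 1)) * (136 * (k + 1)) :=
          Nat.le_mul_of_pos_right _ (by omega)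
      _ = (136 * (k + 1)) ^ 3 := by ring
  have hDq : D ≤ q ^ 2 := by
    have h3 : 128 * (L + 1) ≤ q := by
      calc 128 * (L + 1) ≤ 512 * (k + 1) := by omega
        _ ≤ q := h68.trans h2
    calc D = 128 * (L + 1) * q := rfl
      _ ≤ q * q := Nat.mul_le_mul_right _ h3
      _ = q ^ 2 := by ring
  have hDE : D ≤ E := hDq.trans (le_trans (Nat.pow_le_pow_right hq1 (by norm_num)) hq4)
  have hD0 : 0 < D := by positivity
  refine ⟨E / D, (Nat.one_le_div_iff hD0).2 hDE, ?_, ?_, ?_⟩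
  · have h3 : E / D * D ≤ E := Nat.div_mul_le_self _ _
    rw [Nat.le_div_iff_mul_le (by norm_num)]
    calc q * (E / D) * 16 ≤ q * (E / D) * (128 * (L + 1)) := Nat.mul_le_mul_left _ (by omega)
      _ = E / D * D := by rw [hD]; ring
      _ ≤ E := h3
  · have h3 : E / D * D ≤ E := Nat.div_mul_le_self _ _
    rw [Nat.le_div_iff_mul_le (by norm_num)]
    calc 2 * (2 * L * (q * (E / D))) * 16 = (q * (E / D)) * (64 * L) := by ring
      _ ≤ (q * (E / D)) * (128 * (L + 1)) := Nat.mul_le_mul_left _ (by omega)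
      _ = E / D * D := by rw [hD]; ring
      _ ≤ E := h3
  · set m := E / D with hm
    have hm1 : 1 ≤ m := (Nat.one_le_div_iff hD0).2 hDE
    have h3 : E < (m + 1) * D := by
      have := Nat.lt_div_mul_add (a := E) hD0
      rw [add_mul, one_mul]
      exact this
    have h4 : E < 2 * m * D := lt_of_lt_of_le h3 (Nat.mul_le_mul_right _ (by omega))
    have h5 : E / 16 / m ≤ 16 * (L + 1) * q := by
      rw [Nat.div_div_eq_div_mul, ← Nat.lt_succ_iff, Nat.div_lt_iff_lt_mul (by positivity)]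
      calc E < 2 * m * D := h4
        _ = 16 * (L + 1) * q * (16 * m) := by rw [hD]; ring
        _ ≤ (16 * (L + 1) * q).succ * (16 * m) := Nat.mul_le_mul_right _ (Nat.le_succ _)
    have h6 : E / 16 / m + 1 ≤ 68 * (k + 1) * q := by
      calc E / 16 / m + 1 ≤ 16 * (L + 1) * q + 1 := by omega
        _ ≤ 17 * (L + 1) * q := by nlinarith [Nat.mul_le_mul (Nat.succ_le_succ (Nat.zero_le L)) hq1]
        _ ≤ 68 * (k + 1) * q := Nat.mul_le_mul_right _ (by omega)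
    calc (2 * (E / 16 / m + 1)) ^ 3 ≤ (2 * (68 * (k + 1) * q)) ^ 3 :=
          Nat.pow_le_pow_left (Nat.mul_le_mul_left _ h6) 3
      _ = (136 * (k + 1)) ^ 3 * q ^ 3 := by ring
      _ ≤ q * q ^ 3 := Nat.mul_le_mul_right _ h2
      _ = q ^ 4 := by ring
      _ ≤ E := hq4

theorem exp_small (a η : ℝ) (ha : 0 < a) (hη : 0 < η) :
    ∀ᶠ u : ℝ in atTop, Real.exp (-(a * u)) < η := by
  have e5 : Tendsto (fun u : ℝ => Real.exp (-(a * u))) atTop (𝓝 0) := by
    refine Real.tendsto_exp_atBot.comp ?_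
    exact tendsto_neg_atTop_atBot.comp (Tendsto.const_mul_atTop ha tendsto_id)
  exact e5.eventually (gt_mem_nhds hη)

/-- eventual inequalities for the size of `E` -/
theorem sizes (c cS cG cT η : ℝ) (hc : 0 ≤ c) (hS : 0 < cS) (hG : 0 < cG) (hT : 0 < cT)
    (hη : 0 < η) : ∃ E0 : ℕ, ∀ E : ℕ, E0 ≤ E →
    1 ≤ Real.log E ∧ 16 * Real.log E ≤ E ∧ c * (E * Real.log E) * (4 / (E : ℝ) ^ 2) ≤ η ∧
      c * (E * Real.log E) * Real.exp (-(cG * E)) ≤ η ∧ Real.exp (-(cS * E)) ≤ η ∧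
      Real.exp (-(cT * E)) ≤ η ∧ Real.exp (-((E : ℝ) ^ 2 / 2)) ≤ η := by
  have hN : Tendsto (fun E : ℕ => (E : ℝ)) atTop atTop := tendsto_natCast_atTop_atTop
  have e1 : ∀ᶠ u : ℝ in atTop, 1 ≤ Real.log u := Real.tendsto_log_atTop.eventually_ge_atTop 1
  have e2 : ∀ᶠ u : ℝ in atTop, ‖Real.log u‖ ≤ 1 / (16 + 4 * c / η) * ‖id u‖ :=
    (Asymptotics.isLittleO_iff.1 Real.isLittleO_log_id_atTop) (by positivity)
  have e3 : Tendsto (fun u : ℝ => c * (u ^ 2 * Real.exp (-(cG * u)))) atTop (𝓝 (c * 0)) := by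
    refine Tendsto.const_mul _ ?_
    have h := Real.tendsto_pow_mul_exp_neg_atTop_nhds_zero 2
    have h2 : Tendsto (fun u : ℝ => (1 / cG ^ 2) * ((cG * u) ^ 2 * Real.exp (-(cG * u)))) atTop
        (𝓝 ((1 / cG ^ 2) * 0)) := by
      refine Tendsto.const_mul _ ?_
      exact h.comp (Tendsto.const_mul_atTop hG tendsto_id)
    rw [mul_zero] at h2
    refine h2.congr fun u => ?_
    field_simp
  rw [mul_zero] at e3
  have e4 : ∀ᶠ u : ℝ in atTop, c * (u ^ 2 * Real.exp (-(cG * u))) < η :=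
    e3.eventually (gt_mem_nhds hη)
  obtain ⟨E0, hE0⟩ := eventually_atTop.1 (hN.eventually (e1.and (e2.and (e4.and
    ((exp_small cS η hS hη).and ((exp_small cT η hT hη).and ((exp_small (1 / 2) η (by norm_num)
      hη).and (eventually_ge_atTop 1))))))))
  refine ⟨E0, fun E hE => ?_⟩
  obtain ⟨a1, a2, a3, a4, a5, a6, a7⟩ := hE0 E hE
  rw [id, Real.norm_of_nonneg (by linarith : (0 : ℝ) ≤ Real.log (E : ℝ)),
    Real.norm_of_nonneg (by linarith : (0 : ℝ) ≤ (E : ℝ))] at a2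
  have hEpos : (0 : ℝ) < E := by linarith
  have hlog0 : 0 ≤ Real.log (E : ℝ) := by linarith
  have a8 : Real.log E * (16 + 4 * c / η) ≤ E := by
    rw [one_div, inv_mul_eq_div, le_div_iff₀ (by positivity)] at a2
    exact a2
  have h0 : 0 ≤ Real.log E * (4 * c / η) := by positivity
  have h16 : 16 * Real.log E ≤ E := by linarith
  refine ⟨a1, h16, ?_, ?_, a4.le, a5.le, ?_⟩
  · have h3 : c * (E * Real.log E) * (4 / (E : ℝ) ^ 2) = (Real.log E * (4 * c / η)) * η / E := by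
      field_simp
    rw [h3, div_le_iff₀ hEpos, mul_comm η]
    exact mul_le_mul_of_nonneg_right (by linarith) hη.le
  · have h8 : Real.log E ≤ E := by linarith
    calc c * (E * Real.log E) * Real.exp (-(cG * E))
        ≤ c * (E * E) * Real.exp (-(cG * E)) := by gcongr
      _ = c * ((E : ℝ) ^ 2 * Real.exp (-(cG * E))) := by ring
      _ ≤ η := a3.le
  · refine le_trans (Real.exp_le_exp.2 ?_) a6.le
    nlinarith

/-- the number of integers -/
theorem card_bound {ct : ℝ} {E z y u v Q b : ℕ} (hz : 2 ≤ z)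
    (h : ∀ B : Finset ℕ, B ⊆ Icc 1 z → B.card ^ 2 ≤ E →
      ∀ d : ℕ → ℕ, (∀ i ∈ B, Sf z (d i)) → ∏ i ∈ B, d i ≤ z ^ (E / 4) →
      ((∀ i ∈ B, ∀ j ∈ B, i ≠ j → Nat.Coprime (d i) (d j)) →
        |(((NI u v Q b).filter (fun n => ∀ i ∈ B, d i ∣ n + i ∧ Rg y z (n + i))).card : ℝ)
          - XI u v Q * (gB y z B * ∏ i ∈ B, (1 / (d i : ℝ)))|
          ≤ Real.exp (-(ct * E)) * (XI u v Q * ∏ i ∈ B, (om y z / d i)))
      ∧ (¬ (∀ i ∈ B, ∀ j ∈ B, i ≠ j → Nat.Coprime (d i) (d j)) →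
        ((NI u v Q b).filter (fun n => ∀ i ∈ B, d i ∣ n + i ∧ Rg y z (n + i))).card = 0)) :
    ((NI u v Q b).card : ℝ) ≤ (1 + Real.exp (-(ct * E))) * XI u v Q := by
  have h1 := (h ∅ (by simp) (by simp) (fun _ => 1) (by simp) (by
    simp only [Finset.prod_empty]
    exact Nat.one_le_pow _ _ (by omega))).1 (by simp)
  have hg : gB y z ∅ = 1 := by
    unfold gB
    apply Finset.prod_eq_one
    intro p _
    simp
  rw [hg] at h1
  simp only [Finset.prod_empty, mul_one] at h1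
  have h2 : (NI u v Q b).filter (fun n => ∀ i ∈ (∅ : Finset ℕ), 1 ∣ n + i ∧ Rg y z (n + i)) =
      NI u v Q b := by
    apply Finset.filter_true_of_mem
    intro n _ i hi
    simp at hi
  rw [h2] at h1
  have h3 := (abs_le.1 h1).2
  linarith

/-- the bound for the mean square of `GB`, arithmetic part -/
theorem up_bound {X D Sig o c E l ex η : ℝ} {k : ℕ} (hX : 0 ≤ X) (hD1 : 1 ≤ D) (ho : 0 ≤ o)
    (hex : 0 ≤ ex) (hSig : Sig ≤ 4 / E ^ 2 * D) (hP : (k : ℝ) * o ≤ c * (E * l))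
    (s3 : c * (E * l) * (4 / E ^ 2) ≤ η / 2) (s4 : c * (E * l) * ex ≤ η / 2) :
    (k : ℝ) * (X * o * (Sig + ex)) ≤ η * (X * D) := by
  have hD0 : 0 ≤ D := by linarith
  have h1 : Sig + ex ≤ 4 / E ^ 2 * D + ex * D := by
    have h1 : ex ≤ ex * D := le_mul_of_one_le_right hex hD1
    linarith
  have hko : 0 ≤ (k : ℝ) * o := mul_nonneg (Nat.cast_nonneg _) ho
  have h4 : 0 ≤ 4 / E ^ 2 * D + ex * D := by positivity
  calc (k : ℝ) * (X * o * (Sig + ex)) = X * ((k : ℝ) * o * (Sig + ex)) := by ring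
    _ ≤ X * ((k : ℝ) * o * (4 / E ^ 2 * D + ex * D)) := by gcongr
    _ ≤ X * (c * (E * l) * (4 / E ^ 2 * D + ex * D)) := by gcongr
    _ = X * D * (c * (E * l) * (4 / E ^ 2) + c * (E * l) * ex) := by ring
    _ ≤ X * D * (η / 2 + η / 2) := mul_le_mul_of_nonneg_left (add_le_add s3 s4) (by positivity)
    _ = η * (X * D) := by ring

/-- the part of large cost -/
theorem sig_bound {c c1 : ℝ} {E m q z y L : ℕ} {P : Finset ℕ} (hcl : c ≤ c1 / 2000)
    (hc1 : 0 < c1) (hE : 300 ≤ E) (hL : L = Nat.log 2 E)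
    (hP : P.card ≤ y) (hl1 : 1 ≤ Real.log E)
    (hVlog : c1 / 16 * Real.log E ≤ VV z m (q * m)) (hV1 : 1 ≤ VV z m (q * m))
    (hj : 2 * (2 * L * (q * m)) ≤ E / 16)
    (hD : 1 ≤ DB m q (E / 16) z y P) (hPo : (P.card : ℝ) * om y z ≤ c * (E * Real.log E)) :
    ∑ r ∈ (TB m q (E / 16) z P).filter (fun r => E / 16 < cost z r + q * m), wb m q y z r ≤
      4 / (E : ℝ) ^ 2 * DB m q (E / 16) z y P := by
  have hE0 : E ≠ 0 := by omega
  have hEr : (300 : ℝ) ≤ E := by exact_mod_cast hE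
  have hEpos : (0 : ℝ) < E := by linarith
  have hpow2 : E < 2 ^ (L + 1) := by
    rw [hL]
    exact Nat.lt_pow_succ_log_self (by norm_num) E
  have hMr : (E : ℝ) / 17 ≤ ((E / 16 : ℕ) : ℝ) := by
    have : E ≤ 17 * (E / 16) := by clear hj; omega
    have h3 : (E : ℝ) ≤ 17 * ((E / 16 : ℕ) : ℝ) := by exact_mod_cast this
    linarith
  set V := VV z m (q * m) with hV
  have hV0 : V ≠ 0 := by linarith
  have hVpos : 0 < V := by linarith
  set D := DB m q (E / 16) z y P with hDdef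
  have htail := Pool.Agent.Helper88.RR.tail Pool.Agent.Helper28.RR.ra m q (E / 16) z y (2 * L) P hP
    hV0 hj (by
    refine le_trans ?_ hMr
    rw [← hV]
    have h1 : (P.card : ℝ) * om y z * (1 / V) ≤ c * (E * Real.log E) * (1 / V) :=
      mul_le_mul_of_nonneg_right hPo (by positivity)
    have h2 : c * (E * Real.log E) * (1 / V) ≤ E / 100 := by
      rw [mul_one_div, div_le_iff₀ hVpos]
      have h3 : c * Real.log E ≤ V / 100 := by
        calc c * Real.log E ≤ c1 / 2000 * Real.log E :=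
              mul_le_mul_of_nonneg_right hcl (by linarith)
          _ ≤ V / 100 := by
              have : 0 ≤ c1 * Real.log E := by positivity
              linarith
      calc c * (E * Real.log E) = E * (c * Real.log E) := by ring
        _ ≤ E * (V / 100) := mul_le_mul_of_nonneg_left h3 hEpos.le
        _ = E / 100 * V := by ring
    linarith)
  rw [← hDdef] at htail
  set Sig := ∑ r ∈ (TB m q (E / 16) z P).filter (fun r => E / 16 < cost z r + q * m),
    wb m q y z r with hSig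
  have hpow : (E : ℝ) ^ 2 / 4 ≤ 2 ^ (2 * L) := by
    have h1 : (E : ℝ) ≤ 2 ^ (L + 1) := by exact_mod_cast hpow2.le
    have h2 : (E : ℝ) / 2 ≤ 2 ^ L := by
      rw [pow_succ] at h1
      linarith
    calc (E : ℝ) ^ 2 / 4 = (E / 2) ^ 2 := by ring
      _ ≤ (2 ^ L) ^ 2 := pow_le_pow_left₀ (by positivity) h2 2
      _ = 2 ^ (2 * L) := by rw [← pow_mul, mul_comm]
  have hD0 : 0 ≤ D := by linarith
  by_cases hs : Sig ≤ 0
  · exact hs.trans (by positivity)
  · push Not at hs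
    have h1 : (E : ℝ) ^ 2 / 4 * Sig ≤ D :=
      le_trans (mul_le_mul_of_nonneg_right hpow hs.le) htail
    have hE2 : (0 : ℝ) < (E : ℝ) ^ 2 := by positivity
    rw [div_mul_eq_mul_div, le_div_iff₀ hE2]
    linarith

/-- the normalisation is large -/
theorem V_bound {c1 : ℝ} {E m z L L3 : ℕ} (hc1 : 0 < c1) (hm1 : 1 ≤ m) (hz2 : 2 ≤ z)
    (hE : 300 ≤ E) (hL : L = Nat.log 2 E) (hLL : L3 ≤ L)
    (hL3 : max 100 (32 / c1) < (L3 : ℝ))
    (hVL : ∀ j m z : ℕ, 1 ≤ m → 2 ≤ z → c1 * j - 1 ≤ VV z m (2 ^ j * m)) :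
    1 ≤ VV z m (2 ^ (L / 4) * m) ∧ c1 / 16 * Real.log E ≤ VV z m (2 ^ (L / 4) * m) := by
  have hE0 : E ≠ 0 := by omega
  have hEr : (300 : ℝ) ≤ E := by exact_mod_cast hE
  have hEpos : (0 : ℝ) < E := by linarith
  have hLr : (L3 : ℝ) ≤ L := by exact_mod_cast hLL
  have hL100 : (100 : ℝ) ≤ L := le_trans (le_of_lt (lt_of_le_of_lt (le_max_left _ _) hL3)) hLr
  have hLc : 32 / c1 ≤ L := le_trans (le_of_lt (lt_of_le_of_lt (le_max_right _ _) hL3)) hLr
  have hLc' : 32 ≤ c1 * L := by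
    rw [div_le_iff₀ hc1] at hLc
    linarith
  have hpow2 : E < 2 ^ (L + 1) := by
    rw [hL]
    exact Nat.lt_pow_succ_log_self (by norm_num) E
  have hlogE : Real.log E ≤ L + 1 := by
    have h1 : (E : ℝ) ≤ 2 ^ (L + 1) := by exact_mod_cast hpow2.le
    have h2 : Real.log E ≤ Real.log ((2 : ℝ) ^ (L + 1)) := Real.log_le_log hEpos h1
    rw [Real.log_pow] at h2
    have h3 := Real.log_two_lt_d9
    have h4 : (0 : ℝ) ≤ ((L + 1 : ℕ) : ℝ) := Nat.cast_nonneg _
    push_cast at h2 h4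
    nlinarith
  set V := VV z m (2 ^ (L / 4) * m) with hV
  have hVlow : c1 * L / 8 ≤ V := by
    have h1 := hVL (L / 4) m z hm1 hz2
    have h2 : ((L : ℝ) - 3) / 4 ≤ ((L / 4 : ℕ) : ℝ) := by
      have : L ≤ 4 * (L / 4) + 3 := by omega
      have h3 : (L : ℝ) ≤ 4 * ((L / 4 : ℕ) : ℝ) + 3 := by exact_mod_cast this
      linarith
    have h3 := mul_le_mul_of_nonneg_left h2 hc1.le
    have h4 : c1 * L / 8 ≤ c1 * (((L : ℝ) - 3) / 4) - 1 := by nlinarith
    exact h4.trans (le_trans (by linarith) h1)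
  refine ⟨by linarith, le_trans ?_ hVlow⟩
  have : Real.log E ≤ 2 * L := by linarith
  nlinarith

theorem kb (h1 : StmtS1) (h2 : StmtGT) (h3 : StmtS3) (h4 : StmtSU) (h5 : StmtTL) : StmtKB := by
  obtain ⟨c1, hc1, hVL⟩ := Pool.Agent.Helper88.RR.vl
  obtain ⟨cS, hcS, ES, hS1⟩ := h1
  obtain ⟨cG, hcG, EG, hGT⟩ := h2
  obtain ⟨EU, hSU⟩ := h4
  obtain ⟨cT, hcT, ET, hTL⟩ := h5
  obtain ⟨E1, hE1⟩ := params
  set c : ℝ := min 1 (c1 / 2000) with hc
  have hc0 : 0 < c := lt_min one_pos (by positivity)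
  have hcl : c ≤ c1 / 2000 := min_le_right _ _
  have hcone : c ≤ 1 := min_le_left _ _
  clear_value c
  refine ⟨c, hc0, fun ε hε => ?_⟩
  set ε' : ℝ := min 1 (ε / 40) with hε'
  have hε'0 : 0 < ε' := lt_min one_pos (by positivity)
  have hε'1 : ε' ≤ 1 := min_le_left _ _
  have hε'2 : ε' ≤ ε / 40 := min_le_right _ _
  clear_value ε'
  obtain ⟨E3, hS3⟩ := h3 ε' hε'0
  obtain ⟨E2, hE2⟩ := sizes c cS cG cT (ε' / 2) hc0.le hcS hcG hcT (by positivity)
  obtain ⟨L3, hL3⟩ := exists_nat_gt (max 100 (32 / c1))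
  refine ⟨ES + EG + EU + ET + E1 + E2 + E3 + 2 ^ L3 + 300, ?_⟩
  intro E z x y hE hSr Q b hQ hb J P hJc hJz hJd hP hPo
  have hp2 : 0 < 2 ^ L3 := by positivity
  have hES : ES ≤ E := by omega
  have hEG : EG ≤ E := by omega
  have hEU : EU ≤ E := by omega
  have hET : ET ≤ E := by omega
  have hEE1 : E1 ≤ E := by omega
  have hEE2 : E2 ≤ E := by omega
  have hEE3 : E3 ≤ E := by omega
  have hEL3 : 2 ^ L3 ≤ E := by omega
  have hE300 : 300 ≤ E := by omega
  clear hE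
  obtain ⟨m, hm1, hqm, hjqm, hK2⟩ := hE1 E hEE1
  obtain ⟨s1, s2, s3, s4, s5, s6, s7⟩ := hE2 E hEE2
  set L := Nat.log 2 E with hL
  have hE0 : E ≠ 0 := by clear hqm hjqm hK2; omega
  have hEr : (300 : ℝ) ≤ E := by exact_mod_cast hE300
  have hEpos : (0 : ℝ) < E := by linarith
  have hLL : L3 ≤ L := Nat.le_log_of_pow_le (by norm_num) hEL3
  obtain ⟨hz1, hzE, hx2, hy1, hy2, hll⟩ := id hSr
  have hz2 : 2 ≤ z := by
    have h1 : (2 : ℝ) ≤ z := by
      have := Real.add_one_le_exp (E : ℝ)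
      linarith
    exact_mod_cast h1
  obtain ⟨hV1, hVlog⟩ := V_bound hc1 hm1 hz2 hE300 hL hLL hL3 hVL
  set q := 2 ^ (L / 4) with hq
  have hV0 : VV z m (q * m) ≠ 0 := by linarith
  have hK : (E / 16 / m + 1) ^ 3 ≤ E := by
    refine le_trans (Nat.pow_le_pow_left ?_ 3) hK2
    exact Nat.le_mul_of_pos_left _ (by norm_num)
  have hom := Pool.Agent.Helper88.RR.om_nonneg y z
  have hIn : In x (x / 2) x Q b := ⟨hQ, hb, by clear hqm hjqm hK2 hK hzE hx2; omega⟩
  have hX : 0 ≤ XI (x / 2) x Q := div_nonneg (Nat.cast_nonneg _) (Nat.cast_nonneg _)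
  -- the number of points
  have hcard : ∀ t ∈ J, (P t).card ≤ y := by
    intro t ht
    have := Finset.card_le_card (hP t ht)
    rw [Nat.card_Icc] at this
    clear hqm hjqm hK2 hK hzE hx2
    omega
  have hPsub : ∀ t ∈ J, P t ⊆ Icc 1 z := by
    intro t ht i hi
    have h6 := Finset.mem_Icc.1 (hP t ht hi)
    have h7 := hJz t ht
    rw [Finset.mem_Icc]
    clear hqm hjqm hK2 hK hzE hx2
    omega
  have hPhalf : ∀ t ∈ J, ((P t).card : ℝ) * om y z ≤ (E : ℝ) ^ 2 / 2 := by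
    intro t ht
    refine (hPo t ht).trans ?_
    have h1 : 2 * Real.log E ≤ E := by linarith
    calc c * (E * Real.log E) ≤ 1 * (E * (E / 2)) := by
          apply mul_le_mul hcone _ (by positivity) (by norm_num)
          exact mul_le_mul_of_nonneg_left (by linarith) hEpos.le
      _ = (E : ℝ) ^ 2 / 2 := by ring
  have hPo2 : ∀ t ∈ J, ((P t).card : ℝ) * om y z ≤ (E : ℝ) ^ 2 := by
    intro t ht
    refine (hPhalf t ht).trans ?_
    have : (0 : ℝ) ≤ (E : ℝ) ^ 2 := by positivity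
    linarith
  have hM2 : 2 ≤ E / 16 := by clear hqm hjqm hK2 hK hzE hx2; omega
  have hxr : z ^ (E / 16) * 2 ≤ x := by
    refine le_trans ?_ hzE
    calc z ^ (E / 16) * 2 ≤ z ^ (E / 16) * z := Nat.mul_le_mul_left _ hz2
      _ = z ^ (E / 16 + 1) := (pow_succ _ _).symm
      _ ≤ z ^ E := Nat.pow_le_pow_right (by omega) (by clear hqm hjqm hK2 hK hzE hx2; omega)
  -- the nonempty set of windows
  have hJpos : (0 : ℝ) < J.card := lt_of_lt_of_le (Real.exp_pos _) hJc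
  have hJne : J.Nonempty := by
    rw [← Finset.card_pos]
    exact_mod_cast hJpos
  have key := class_bound (N := NI (x / 2) x Q b) (J := J)
    (W := fun t n => WB m q (E / 16) z y (P t) n)
    (G := fun t n => ∑ h : P t, GB m q (E / 16) z y (P t) h n ^ 2)
    (D := fun t => DB m q (E / 16) z y (P t)) (X := XI (x / 2) x Q)
    (K := Real.exp ((E : ℝ) ^ 2 / 2)) (ε := ε') hJne hX hε'0.le hε'1 (Real.exp_pos _).le ?_ ?_ ?_
    ?_ ?_ ?_ ?_ ((NI (x / 2) x Q b).filter (fun n => ∀ t ∈ J, ∃ h ∈ P t, (n + h).Prime))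
    (Finset.filter_subset _ _) ?_
  · refine key.trans (mul_le_mul_of_nonneg_right ?_ hX)
    have h6 : 4 * (2 * Real.exp ((E : ℝ) ^ 2 / 2)) / J.card ≤ 8 * Real.exp (-((E : ℝ) ^ 2 / 2)) := by
      rw [div_le_iff₀ hJpos]
      calc 4 * (2 * Real.exp ((E : ℝ) ^ 2 / 2))
          = 8 * (Real.exp (-((E : ℝ) ^ 2 / 2)) * Real.exp ((E : ℝ) ^ 2)) := by
            rw [← Real.exp_add]
            rw [show -((E : ℝ) ^ 2 / 2) + (E : ℝ) ^ 2 = (E : ℝ) ^ 2 / 2 by ring]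
            ring
        _ ≤ 8 * (Real.exp (-((E : ℝ) ^ 2 / 2)) * J.card) := by
            have := mul_le_mul_of_nonneg_left hJc (Real.exp_pos (-((E : ℝ) ^ 2 / 2))).le
            linarith
        _ = 8 * Real.exp (-((E : ℝ) ^ 2 / 2)) * J.card := by ring
    linarith
  · refine (card_bound hz2 (hTL E z x y hET hSr _ _ Q b hIn)).trans ?_
    exact mul_le_mul_of_nonneg_right (by linarith) hX
  · intro t ht
    exact (hS1 E z x y hES hSr _ _ Q b hIn m q hm1 hqm hV1 hK t (hJz t ht) (P t) (hP t ht)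
      (hPo2 t ht)).1
  · intro t ht n hn
    exact Finset.sum_nonneg fun h _ => sq_nonneg _
  · intro t ht
    refine (hS1 E z x y hES hSr _ _ Q b hIn m q hm1 hqm hV1 hK t (hJz t ht) (P t) (hP t ht)
      (hPo2 t ht)).2.trans ?_
    exact mul_le_mul_of_nonneg_right (by linarith) hX
  · intro t ht
    have hD1 := (hS1 E z x y hES hSr _ _ Q b hIn m q hm1 hqm hV1 hK t (hJz t ht) (P t) (hP t ht)
      (hPo2 t ht)).1
    have hG := hGT E z x y hEG hSr _ _ Q b hIn m q hm1 hqm hV1 hK t (hJz t ht) (P t) (hP t ht)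
      (hPo2 t ht)
    have hSig := sig_bound hcl hc1 hE300 hL (hcard t ht) s1 hVlog hV1 hjqm hD1 (hPo t ht)
    rw [Finset.sum_comm]
    refine (Finset.sum_le_sum fun h _ => hG h).trans ?_
    rw [Finset.sum_const, nsmul_eq_mul, Finset.card_univ, Fintype.card_coe]
    exact up_bound hX hD1 hom (Real.exp_pos _).le hSig (hPo t ht) s3 s4
  · intro t ht t' ht' htt
    rcases Nat.lt_or_gt_of_ne htt with hlt | hlt
    · refine hS3 E z x y hEE3 hSr _ _ Q b hIn m q hm1 hqm hV1 hK2 t t' (hJd t ht t' ht' hlt)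
        (hJz t' ht') (P t) (P t') (hP t ht) (hP t' ht') ?_
      rw [add_mul]
      have h6 := hPhalf t ht
      have h7 := hPhalf t' ht'
      linarith
    · have h8 := hS3 E z x y hEE3 hSr _ _ Q b hIn m q hm1 hqm hV1 hK2 t' t
        (hJd t' ht' t ht hlt) (hJz t ht) (P t') (P t) (hP t' ht') (hP t ht) (by
          rw [add_mul]
          have h6 := hPhalf t ht
          have h7 := hPhalf t' ht'
          linarith)
      have h9 : ∑ n ∈ NI (x / 2) x Q b, WB m q (E / 16) z y (P t) n ^ 2 *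
          WB m q (E / 16) z y (P t') n ^ 2 = ∑ n ∈ NI (x / 2) x Q b,
          WB m q (E / 16) z y (P t') n ^ 2 * WB m q (E / 16) z y (P t) n ^ 2 :=
        Finset.sum_congr rfl fun n _ => mul_comm _ _
      rw [h9, mul_comm (DB m q (E / 16) z y (P t))]
      exact h8
  · intro t ht n hn
    have hn1 : n ≤ x := (Finset.mem_Ioc.mp (Finset.mem_filter.mp hn).1).2
    exact hSU E z x y hEU hSr m q hm1 hqm hV1 hK (P t) (hcard t ht) (hPsub t ht) n hn1
  · intro n hn t ht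
    obtain ⟨hn1, hn2⟩ := Finset.mem_filter.1 hn
    have hn3 : x / 2 < n := (Finset.mem_Ioc.mp (Finset.mem_filter.mp hn1).1).1
    have hzn : z ^ (E / 16) ≤ n := by clear hqm hjqm hK2 hK hzE hx2; omega
    refine le_trans ?_ (Pool.Agent.Helper88.RR.point Pool.Agent.Helper59.RR.pw m q (E / 16) z y n
      (P t) hM2 hm1 hz2 hV0 hqm hzn)
    obtain ⟨h, hh, hpr⟩ := hn2 t ht
    have h6 : 1 ≤ ((P t).filter (fun h => (n + h).Prime)).card :=
      Finset.card_pos.2 ⟨h, Finset.mem_filter.2 ⟨hh, hpr⟩⟩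
    have h7 : (1 : ℝ) ≤ (((P t).filter (fun h => (n + h).Prime)).card : ℝ) := by exact_mod_cast h6
    exact le_mul_of_one_le_right (sq_nonneg _) h7

end Pool.Agent.Helper73.GM
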